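import Mathlib

/-!
Every hyperbolic, convex, locally shallow circle polyhedron is globally shallow.
-/

open Set Filter Topology

namespace Pool.Agent.Results.MP_625e57_gt.LocallyShallow

/-- Vectors of Lorentz space `ℝ^{3,1}`. -/
abbrev Vec : Type := Fin 4 → ℝ

/-- The Lorentz form `x x' + y y' + z z' - t t'`. -/
def lor (u v : Vec) : ℝ := u 0 * v 0 + u 1 * v 1 + u 2 * v 2 - u 3 * v 3

/-- The open oriented disk on the unit sphere determined by a vector `(a,b,c,d)`:
the points `(x,y,z)` of the sphere with `a x + b y + c z - d > 0`. -/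
def disk (n : Vec) : Set (EuclideanSpace ℝ (Fin 3)) :=
  {p | p ∈ Metric.sphere (0 : EuclideanSpace ℝ (Fin 3)) 1 ∧
    0 < n 0 * p 0 + n 1 * p 1 + n 2 * p 2 - n 3}

/-- The inversive distance of the disks of two spacelike vectors. -/
noncomputable def inv (n m : Vec) : ℝ :=
  - (lor n m / (Real.sqrt (lor n n) * Real.sqrt (lor m m)))

/-- A convex circle polyhedron with vertex set `V`: the vectors `n v` generate the extreme rays
of the convex polyhedral cone `K = cone {n v}` in `ℝ^{3,1}`, and all of them are spacelike. -/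
structure ConvexCPolyhedron (V : Type) [Fintype V] where
  /-- the vertex vectors -/
  n : V → Vec
  /-- all vertex rays are spacelike -/
  spacelike : ∀ v, 0 < lor (n v) (n v)
  /-- each `n v` spans a vertex ray of the cone: some support hyperplane meets the cone exactly
  in the ray of `n v` -/
  vertex_ray : ∀ v, ∃ h : Module.Dual ℝ Vec, h (n v) = 0 ∧ ∀ u, u ≠ v → 0 < h (n u)
  /-- the cone is full-dimensional, so it is a cone over a `3`-dimensional convex polytope -/
  span_top : Submodule.span ℝ (Set.range n) = ⊤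

variable {V : Type} [Fintype V]

/-- `v` and `w` are adjacent in the `1`-skeleton: some support hyperplane meets the cone exactly
in the two-dimensional cone spanned by `n v` and `n w`. -/
def Adj (P : ConvexCPolyhedron V) (v w : V) : Prop :=
  v ≠ w ∧ ∃ h : Module.Dual ℝ Vec, h (P.n v) = 0 ∧ h (P.n w) = 0 ∧
    ∀ u, u ≠ v → u ≠ w → 0 < h (P.n u)

/-- Hyperbolic: every support hyperplane of the polyhedron (a linear hyperplane with the cone on
one side, containing some vertex ray) meets the interior of the light cone. -/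
def IsHyperbolic (P : ConvexCPolyhedron V) : Prop :=
  ∀ h : Module.Dual ℝ Vec, h ≠ 0 → (∀ v, 0 ≤ h (P.n v)) → (∃ v, h (P.n v) = 0) →
    ∃ x : Vec, h x = 0 ∧ lor x x < 0

/-- The shallowness condition for a pair of vertices. -/
def ShallowPair (P : ConvexCPolyhedron V) (v w : V) : Prop :=
  0 < inv (P.n v) (P.n w) ∧
    (1 ≤ inv (P.n v) (P.n w) → disk (P.n v) ∩ disk (P.n w) = ∅)

/-- Locally shallow: the condition holds for all adjacent pairs. -/
def IsLocallyShallow (P : ConvexCPolyhedron V) : Prop :=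
  ∀ v w, Adj P v w → ShallowPair P v w

/-- Globally shallow: the condition holds for all pairs of distinct vertices. -/
def IsGloballyShallow (P : ConvexCPolyhedron V) : Prop :=
  ∀ v w, v ≠ w → ShallowPair P v w

lemma lor_comm (u v : Vec) : lor u v = lor v u := by unfold lor; ring

/-- The functional `lor u`. -/
def lorL (u : Vec) : Module.Dual ℝ Vec where
  toFun v := lor u v
  map_add' x y := by simp only [lor, Pi.add_apply]; ring
  map_smul' c x := by simp only [lor, Pi.smul_apply, smul_eq_mul, RingHom.id_apply]; ring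

lemma lorL_apply (u v : Vec) : lorL u v = lor u v := rfl

section combinatorics

open Classical in
/-- Improving edge lemma: if `G` vanishes at `n x` and is positive at some vertex, then it is
positive at some neighbour of `x`. -/
lemma improving (P : ConvexCPolyhedron V) (x : V) (G : Module.Dual ℝ Vec) (hGx : G (P.n x) = 0)
    (hpos : ∃ j, 0 < G (P.n j)) : ∃ y, Adj P x y ∧ 0 < G (P.n y) := by
  obtain ⟨j0, hj0⟩ := hpos
  have hj0x : j0 ≠ x := by rintro rfl; rw [hGx] at hj0; exact lt_irrefl _ hj0
  -- admissible functionals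
  let Λ : Set (Module.Dual ℝ Vec) := {l | l (P.n x) = 0 ∧ ∀ j, j ≠ x → 0 < l (P.n j)}
  -- maximisers of the ratio `G / l`
  let S : Module.Dual ℝ Vec → Finset V := fun l =>
    Finset.univ.filter fun j => j ≠ x ∧ ∀ i, i ≠ x → G (P.n i) * l (P.n j) ≤ G (P.n j) * l (P.n i)
  have hΛ : Λ.Nonempty := P.vertex_ray x
  -- choose one with the least number of maximisers
  obtain ⟨l, hl, hmin⟩ : ∃ l ∈ Λ, ∀ l' ∈ Λ, (S l).card ≤ (S l').card := by
    have hne : ((fun l => (S l).card) '' Λ).Nonempty := hΛ.image _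
    obtain ⟨l, hl, hle⟩ := Nat.sInf_mem hne
    exact ⟨l, hl, fun l' hl' => by
      have h1 : (S l).card = sInf ((fun l => (S l).card) '' Λ) := hle
      rw [h1]
      exact Nat.sInf_le ⟨l', hl', rfl⟩⟩
  obtain ⟨hlx, hlpos⟩ := hl
  -- a maximiser exists
  obtain ⟨y, hyx, hymax⟩ : ∃ y, y ≠ x ∧ ∀ i, i ≠ x →
      G (P.n i) * l (P.n y) ≤ G (P.n y) * l (P.n i) := by
    obtain ⟨y, hy, hmaxy⟩ := Finset.exists_max_image (Finset.univ.filter fun j => j ≠ x)
      (fun j => G (P.n j) / l (P.n j)) ⟨j0, by simp [hj0x]⟩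
    have hyx : y ≠ x := by simpa using hy
    refine ⟨y, hyx, fun i hi => ?_⟩
    have h1 := hmaxy i (by simp [hi])
    rwa [div_le_div_iff₀ (hlpos i hi) (hlpos y hyx)] at h1
  have hGy : 0 < G (P.n y) := by
    have h1 := hymax j0 hj0x
    have h2 : 0 < G (P.n j0) * l (P.n y) := mul_pos hj0 (hlpos y hyx)
    exact pos_of_mul_pos_left (h2.trans_le h1) (hlpos j0 hj0x).le
  have hyS : y ∈ S l := by
    simp only [S, Finset.mem_filter, Finset.mem_univ, true_and]
    exact ⟨hyx, hymax⟩
  -- the maximiser is unique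
  have huniq : ∀ k ∈ S l, k = y := by
    intro k hk
    by_contra hky
    have hkx : k ≠ x := by
      simp only [S, Finset.mem_filter, Finset.mem_univ, true_and] at hk
      exact hk.1
    -- `n k` is not in the span of `n x`, `n y`
    have hnot : P.n k ∉ Submodule.span ℝ {P.n x, P.n y} := by
      intro hmem
      obtain ⟨α, β, hαβ⟩ := Submodule.mem_span_pair.1 hmem
      obtain ⟨hx, hx0, hxp⟩ := P.vertex_ray x
      obtain ⟨hy', hy0, hyp⟩ := P.vertex_ray y
      obtain ⟨hk', hk0, hkp⟩ := P.vertex_ray k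
      have e1 : hx (P.n k) = β * hx (P.n y) := by
        rw [← hαβ]; simp [hx0]
      have e2 : hy' (P.n k) = α * hy' (P.n x) := by
        rw [← hαβ]; simp [hy0]
      have e3 : hk' (P.n k) = α * hk' (P.n x) + β * hk' (P.n y) := by
        conv_lhs => rw [← hαβ]
        simp
      have hβ : 0 < β := by
        have h1 := hxp k hkx
        rw [e1] at h1
        exact pos_of_mul_pos_left h1 (hxp y hyx).le
      have hα : 0 < α := by
        have h1 := hyp k hky
        rw [e2] at h1
        exact pos_of_mul_pos_left h1 (hyp x hyx.symm).le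
      rw [hk0] at e3
      have h4 := mul_pos hα (hkp x (Ne.symm hkx))
      have h5 := mul_pos hβ (hkp y (Ne.symm hky))
      linarith
    obtain ⟨T0, hT0k, hT0⟩ := Submodule.exists_le_ker_of_notMem hnot
    have hTx : T0 (P.n x) = 0 := hT0 (Submodule.subset_span (by simp))
    have hTy : T0 (P.n y) = 0 := hT0 (Submodule.subset_span (by simp))
    -- strict inequality for non-maximisers
    have hstrict : ∀ j, j ≠ x → j ∉ S l → G (P.n j) * l (P.n y) < G (P.n y) * l (P.n j) := by
      intro j hj hjS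
      refine lt_of_le_of_ne (hymax j hj) ?_
      intro heq
      apply hjS
      simp only [S, Finset.mem_filter, Finset.mem_univ, true_and]
      refine ⟨hj, fun i hi => ?_⟩
      have h1 := hymax i hi
      have hly := hlpos y hyx
      have hlj := hlpos j hj
      -- G i * l j ≤ G j * l i
      have h2 : (G (P.n i) * l (P.n y)) * l (P.n j) ≤
          (G (P.n y) * l (P.n i)) * l (P.n j) :=
        mul_le_mul_of_nonneg_right h1 hlj.le
      have h3 : l (P.n y) * (G (P.n i) * l (P.n j)) ≤
          l (P.n y) * (G (P.n j) * l (P.n i)) := by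
        calc l (P.n y) * (G (P.n i) * l (P.n j))
            = (G (P.n i) * l (P.n y)) * l (P.n j) := by ring
          _ ≤ (G (P.n y) * l (P.n i)) * l (P.n j) := h2
          _ = (G (P.n y) * l (P.n j)) * l (P.n i) := by ring
          _ = (G (P.n j) * l (P.n y)) * l (P.n i) := by rw [heq]
          _ = l (P.n y) * (G (P.n j) * l (P.n i)) := by ring
      exact le_of_mul_le_mul_left h3 hly
    -- consider `l + t T` for small `t > 0`
    have hev : ∀ T : Module.Dual ℝ Vec, ∀ᶠ t in 𝓝[>] (0 : ℝ),
        (∀ j, j ≠ x → 0 < (l + t • T) (P.n j)) ∧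
        (∀ j, j ≠ x → j ∉ S l →
          G (P.n j) * (l + t • T) (P.n y) < G (P.n y) * (l + t • T) (P.n j)) := by
      intro T
      have hnh : 𝓝[>] (0 : ℝ) ≤ 𝓝 0 := nhdsWithin_le_nhds
      refine Filter.Eventually.filter_mono hnh ?_
      apply Filter.Eventually.and
      · rw [eventually_all]
        intro j
        by_cases hj : j = x
        · exact Eventually.of_forall fun t h => absurd hj h
        · have hc : Tendsto (fun t : ℝ => (l + t • T) (P.n j)) (𝓝 0)
              (𝓝 (l (P.n j) + 0 * T (P.n j))) := by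
            simp only [LinearMap.add_apply, LinearMap.smul_apply, smul_eq_mul]
            exact tendsto_const_nhds.add (tendsto_id.mul_const _)
          have h1 := hc.eventually (lt_mem_nhds (a := 0) (by simpa using hlpos j hj))
          exact h1.mono fun t ht _ => ht
      · rw [eventually_all]
        intro j
        by_cases hj : j = x
        · exact Eventually.of_forall fun t h => absurd hj h
        by_cases hjS : j ∈ S l
        · exact Eventually.of_forall fun t _ h => absurd hjS h
        · have hc : Tendsto (fun t : ℝ => G (P.n y) * (l + t • T) (P.n j) -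
              G (P.n j) * (l + t • T) (P.n y)) (𝓝 0)
              (𝓝 (G (P.n y) * (l (P.n j) + 0 * T (P.n j)) -
                G (P.n j) * (l (P.n y) + 0 * T (P.n y)))) := by
            simp only [LinearMap.add_apply, LinearMap.smul_apply, smul_eq_mul]
            exact ((tendsto_const_nhds.add (tendsto_id.mul_const _)).const_mul _).sub
              ((tendsto_const_nhds.add (tendsto_id.mul_const _)).const_mul _)
          have h1 := hc.eventually (lt_mem_nhds (a := 0) (by simpa using hstrict j hj hjS))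
          exact h1.mono fun t ht _ _ => by linarith
    -- also for the opposite direction: choose the sign so that the ratio at `k` gets worse
    have hmain : ∀ T : Module.Dual ℝ Vec, T (P.n x) = 0 → T (P.n y) = 0 → 0 < T (P.n k) →
        False := by
      intro T hTx hTy hTk
      obtain ⟨t, ⟨ht1, ht2⟩, ht0⟩ := ((hev T).and self_mem_nhdsWithin).exists
      have ht0 : 0 < t := ht0
      have hl' : (l + t • T) ∈ Λ := ⟨by simp [hlx, hTx], ht1⟩
      have hsub : S (l + t • T) ⊆ (S l).erase k := by
        intro j hj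
        simp only [S, Finset.mem_filter, Finset.mem_univ, true_and] at hj
        obtain ⟨hjx, hjmax⟩ := hj
        have hjS : j ∈ S l := by
          by_contra hjS
          have h1 := ht2 j hjx hjS
          have h2 := hjmax y hyx
          linarith
        rw [Finset.mem_erase]
        refine ⟨?_, hjS⟩
        rintro rfl
        have h2 := hjmax y hyx
        -- G y * (l + tT) k ≤ G k * (l + t T) y = G k * l y = G y * l k
        have h3 : G (P.n j) * l (P.n y) ≤ G (P.n y) * l (P.n j) := hymax j hjx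
        simp only [LinearMap.add_apply, LinearMap.smul_apply, smul_eq_mul, hTy, mul_zero,
          add_zero] at h2
        have h4 : 0 < G (P.n y) * (t * T (P.n j)) := mul_pos hGy (mul_pos ht0 hTk)
        nlinarith
      have hcard : (S (l + t • T)).card < (S l).card :=
        (Finset.card_le_card hsub).trans_lt (Finset.card_erase_lt_of_mem hk)
      exact absurd (hmin _ hl') (not_le.2 hcard)
    rcases lt_or_gt_of_ne hT0k with hneg | hpos'
    · exact hmain (-T0) (by simp [hTx]) (by simp [hTy]) (by simpa using hneg)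
    · exact hmain T0 hTx hTy hpos'
  -- the edge `x y`
  refine ⟨y, ⟨hyx.symm, G (P.n y) • l - l (P.n y) • G, ?_, ?_, ?_⟩, hGy⟩
  · simp [hlx, hGx]
  · simp only [LinearMap.sub_apply, LinearMap.smul_apply, smul_eq_mul]; ring
  · intro u hux huy
    simp only [LinearMap.sub_apply, LinearMap.smul_apply, smul_eq_mul]
    have h1 := hymax u hux
    have h2 : G (P.n u) * l (P.n y) ≠ G (P.n y) * l (P.n u) := by
      intro heq
      apply huy
      apply huniq
      simp only [S, Finset.mem_filter, Finset.mem_univ, true_and]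
      refine ⟨hux, fun i hi => ?_⟩
      have h1 := hymax i hi
      have hly := hlpos y hyx
      have hlj := hlpos u hux
      have h2 : (G (P.n i) * l (P.n y)) * l (P.n u) ≤
          (G (P.n y) * l (P.n i)) * l (P.n u) :=
        mul_le_mul_of_nonneg_right h1 hlj.le
      have h3 : l (P.n y) * (G (P.n i) * l (P.n u)) ≤
          l (P.n y) * (G (P.n u) * l (P.n i)) := by
        calc l (P.n y) * (G (P.n i) * l (P.n u))
            = (G (P.n i) * l (P.n y)) * l (P.n u) := by ring
          _ ≤ (G (P.n y) * l (P.n i)) * l (P.n u) := h2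
          _ = (G (P.n y) * l (P.n u)) * l (P.n i) := by ring
          _ = (G (P.n u) * l (P.n y)) * l (P.n i) := by rw [heq]
          _ = l (P.n y) * (G (P.n u) * l (P.n i)) := by ring
      exact le_of_mul_le_mul_left h3 hly
    have h3 := lt_of_le_of_ne h1 h2
    nlinarith

/-- If `f = lor (n v)` is positive at `v` and negative at all neighbours of `v`, then it is
negative at all other vertices. -/
lemma negative_elsewhere (P : ConvexCPolyhedron V) (v : V) (f : Module.Dual ℝ Vec)
    (hv : 0 < f (P.n v)) (hnb : ∀ w, Adj P v w → f (P.n w) < 0) :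
    ∀ u, u ≠ v → f (P.n u) < 0 := by
  classical
  intro u huv
  by_contra hu
  push Not at hu
  -- a functional positive on all vertices
  obtain ⟨hv', hvv, hvp⟩ := P.vertex_ray v
  obtain ⟨hu', huu, hup⟩ := P.vertex_ray u
  set g : Module.Dual ℝ Vec := hv' + hu' with hg
  have hgpos : ∀ j, 0 < g (P.n j) := by
    intro j
    rw [hg, LinearMap.add_apply]
    by_cases hj : j = v
    · subst hj; rw [hvv, zero_add]; exact hup _ (Ne.symm huv)
    · by_cases hj' : j = u
      · subst hj'; rw [huu, add_zero]; exact hvp _ hj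
      · exact add_pos (hvp _ hj) (hup _ hj')
  -- general step: for a functional `F` with `F n_v > 0` for which `v` is the strict maximiser of
  -- `F / g`, and some other vertex has a value `≥ 0`, some neighbour `w` of `v` has `F n_w ≥ 0`
  have hstep : ∀ F : Module.Dual ℝ Vec, (∀ j, j ≠ v → F (P.n j) * g (P.n v) <
      F (P.n v) * g (P.n j)) → (∃ j, j ≠ v ∧ 0 ≤ F (P.n j)) → ∃ w, Adj P v w ∧ 0 ≤ F (P.n w) := by
    rintro F hF ⟨j, hjv, hj⟩
    obtain ⟨m, hm, hmax⟩ := Finset.exists_max_image (Finset.univ.filter fun j => j ≠ v)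
      (fun j => F (P.n j) / g (P.n j)) ⟨j, by simp [hjv]⟩
    have hmv : m ≠ v := by simpa using hm
    have hFm : 0 ≤ F (P.n m) := by
      have h1 := hmax j (by simp [hjv])
      have h2 : 0 ≤ F (P.n j) / g (P.n j) := div_nonneg hj (hgpos j).le
      have h3 := h2.trans h1
      by_contra hcon
      push Not at hcon
      have := div_neg_of_neg_of_pos hcon (hgpos m)
      linarith
    obtain ⟨y, hy, hGy⟩ := improving P m (g (P.n m) • F - F (P.n m) • g)
      (by simp only [LinearMap.sub_apply, LinearMap.smul_apply, smul_eq_mul]; ring)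
      ⟨v, by
        simp only [LinearMap.sub_apply, LinearMap.smul_apply, smul_eq_mul]
        have := hF m hmv
        linarith⟩
    simp only [LinearMap.sub_apply, LinearMap.smul_apply, smul_eq_mul] at hGy
    have hyv : y = v := by
      by_contra hyv
      have h1 := hmax y (by simp [hyv])
      rw [div_le_div_iff₀ (hgpos y) (hgpos m)] at h1
      linarith
    subst hyv
    refine ⟨m, ⟨hmv.symm, ?_⟩, hFm⟩
    obtain ⟨_, h, h1, h2, h3⟩ := hy
    exact ⟨h, h2, h1, fun u hu hu' => h3 u hu' hu⟩
  -- Case A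
  by_cases hA : ∃ j, f (P.n v) * g (P.n j) < f (P.n j) * g (P.n v)
  · obtain ⟨j, hj⟩ := hA
    obtain ⟨y, hy, hGy⟩ := improving P v (g (P.n v) • f - f (P.n v) • g)
      (by simp only [LinearMap.sub_apply, LinearMap.smul_apply, smul_eq_mul]; ring)
      ⟨j, by
        simp only [LinearMap.sub_apply, LinearMap.smul_apply, smul_eq_mul]
        linarith⟩
    simp only [LinearMap.sub_apply, LinearMap.smul_apply, smul_eq_mul] at hGy
    have h1 := hnb y hy
    have h2 := mul_pos hv (hgpos y)
    have h3 := mul_neg_of_pos_of_neg (hgpos v) h1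
    linarith
  · push Not at hA
    by_cases hB : ∃ j, j ≠ v ∧ f (P.n j) * g (P.n v) = f (P.n v) * g (P.n j)
    · -- tie: perturb
      obtain ⟨j, hjv, hj⟩ := hB
      have hfj : 0 < f (P.n j) := by
        have h1 := mul_pos hv (hgpos j)
        rw [← hj] at h1
        exact pos_of_mul_pos_left h1 (hgpos v).le
      set ε : ℝ := f (P.n j) / (2 * hv' (P.n j)) with hε
      have hε0 : 0 < ε := div_pos hfj (mul_pos two_pos (hvp j hjv))
      obtain ⟨w, hw, hFw⟩ := hstep (f - ε • hv') (by
          intro i hi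
          simp only [LinearMap.sub_apply, LinearMap.smul_apply, smul_eq_mul, hvv, mul_zero,
            sub_zero]
          have h1 := hA i
          have h2 := mul_pos (mul_pos hε0 (hvp i hi)) (hgpos v)
          nlinarith)
        ⟨j, hjv, by
          simp only [LinearMap.sub_apply, LinearMap.smul_apply, smul_eq_mul]
          have h1 : ε * hv' (P.n j) = f (P.n j) / 2 := by
            have := (hvp j hjv).ne'
            rw [hε]; field_simp
          rw [h1]; linarith⟩
      have h1 := hnb w hw
      simp only [LinearMap.sub_apply, LinearMap.smul_apply, smul_eq_mul] at hFw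
      have h2 := mul_pos hε0 (hvp w hw.1.symm)
      linarith
    · push Not at hB
      obtain ⟨w, hw, hFw⟩ := hstep f (fun i hi => lt_of_le_of_ne (hA i) (hB i hi)) ⟨u, huv, hu⟩
      have h1 := hnb w hw
      linarith

end combinatorics

section lorentz

/-- past causal vectors -/
def PastCausal (y : Vec) : Prop := y 3 < 0 ∧ y 0 ^ 2 + y 1 ^ 2 + y 2 ^ 2 ≤ y 3 ^ 2

lemma pastCausal_comb {x y : Vec} (hx : PastCausal x) (hy : PastCausal y) {a b : ℝ} (ha : 0 ≤ a)
    (hb : 0 ≤ b) (hab : 0 < a + b) : PastCausal (a • x + b • y) := by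
  obtain ⟨hx3, hx⟩ := hx
  obtain ⟨hy3, hy⟩ := hy
  have hcs : x 0 * y 0 + x 1 * y 1 + x 2 * y 2 ≤ x 3 * y 3 := by
    have h1 : (x 0 * y 0 + x 1 * y 1 + x 2 * y 2) ^ 2 ≤ (x 3 * y 3) ^ 2 := by
      calc (x 0 * y 0 + x 1 * y 1 + x 2 * y 2) ^ 2
          ≤ (x 0 ^ 2 + x 1 ^ 2 + x 2 ^ 2) * (y 0 ^ 2 + y 1 ^ 2 + y 2 ^ 2) := by
            nlinarith [sq_nonneg (x 0 * y 1 - x 1 * y 0), sq_nonneg (x 0 * y 2 - x 2 * y 0),
              sq_nonneg (x 1 * y 2 - x 2 * y 1)]
        _ ≤ x 3 ^ 2 * y 3 ^ 2 := by
            apply mul_le_mul hx hy (by positivity) (by positivity)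
        _ = (x 3 * y 3) ^ 2 := by ring
    have h2 : 0 ≤ x 3 * y 3 := (mul_pos_of_neg_of_neg hx3 hy3).le
    exact le_of_sq_le_sq h1 h2
  refine ⟨?_, ?_⟩
  · simp only [Pi.add_apply, Pi.smul_apply, smul_eq_mul]
    rcases ha.lt_or_eq with ha' | ha'
    · have h1 := mul_neg_of_pos_of_neg ha' hx3
      have h2 := mul_nonpos_of_nonneg_of_nonpos hb hy3.le
      linarith
    · have hb' : 0 < b := by linarith
      have h1 := mul_neg_of_pos_of_neg hb' hy3
      rw [← ha']; linarith
  · simp only [Pi.add_apply, Pi.smul_apply, smul_eq_mul]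
    have h1 := mul_le_mul_of_nonneg_left hx (mul_nonneg ha ha)
    have h2 := mul_le_mul_of_nonneg_left hy (mul_nonneg hb hb)
    have h3 := mul_le_mul_of_nonneg_left hcs (mul_nonneg ha hb)
    nlinarith

/-- no timelike vector is orthogonal to a past causal vector -/
lemma no_timelike {x y : Vec} (hx : lor x x < 0) (hy : PastCausal y) : lor y x ≠ 0 := by
  intro h
  obtain ⟨hy3, hy⟩ := hy
  unfold lor at h hx
  have h1 : (y 0 * x 0 + y 1 * x 1 + y 2 * x 2) ^ 2 ≤
      (y 0 ^ 2 + y 1 ^ 2 + y 2 ^ 2) * (x 0 ^ 2 + x 1 ^ 2 + x 2 ^ 2) := by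
    nlinarith [sq_nonneg (x 0 * y 1 - x 1 * y 0), sq_nonneg (x 0 * y 2 - x 2 * y 0),
              sq_nonneg (x 1 * y 2 - x 2 * y 1)]
  have h2 : (y 0 * x 0 + y 1 * x 1 + y 2 * x 2) = y 3 * x 3 := by linarith
  rw [h2] at h1
  have h3 : (y 0 ^ 2 + y 1 ^ 2 + y 2 ^ 2) * (x 0 ^ 2 + x 1 ^ 2 + x 2 ^ 2) ≤
      y 3 ^ 2 * (x 0 ^ 2 + x 1 ^ 2 + x 2 ^ 2) := mul_le_mul_of_nonneg_right hy (by positivity)
  have h4 : 0 < y 3 ^ 2 := by nlinarith
  have h5 : y 3 ^ 2 * (x 0 ^ 2 + x 1 ^ 2 + x 2 ^ 2) < y 3 ^ 2 * (x 3 * x 3) := by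
    apply mul_lt_mul_of_pos_left _ h4
    nlinarith
  nlinarith

lemma exists_pastCausal_pos {n : Vec} (hn : 0 < lor n n) : ∃ y, PastCausal y ∧ 0 < lor y n := by
  unfold lor at hn
  set r : ℝ := Real.sqrt (n 0 ^ 2 + n 1 ^ 2 + n 2 ^ 2) with hr
  have hr2 : r ^ 2 = n 0 ^ 2 + n 1 ^ 2 + n 2 ^ 2 := Real.sq_sqrt (by positivity)
  have hr0 : 0 ≤ r := Real.sqrt_nonneg _
  have hlt : |n 3| < r := by
    apply abs_lt_of_sq_lt_sq _ hr0
    nlinarith
  have hrpos : 0 < r := (abs_nonneg _).trans_lt hlt
  refine ⟨![n 0, n 1, n 2, -r], ⟨?_, ?_⟩, ?_⟩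
  · simp [hrpos]
  · simp [hr2]
  · unfold lor
    simp only [Matrix.cons_val_zero, Matrix.cons_val_one, Matrix.cons_val]
    have h1 := neg_abs_le (n 3)
    nlinarith

end lorentz

/-- In a hyperbolic polyhedron there is no past causal `q` with `lor q (n u) ≤ 0` for all
vertices `u`. -/
lemma no_dual (P : ConvexCPolyhedron V) (hP : IsHyperbolic P) (v : V) (q : Vec)
    (hq : PastCausal q) (hle : ∀ u, lor q (P.n u) ≤ 0) : False := by
  classical
  obtain ⟨y, hy, hyv⟩ := exists_pastCausal_pos (P.spacelike v)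
  -- minimise the exit parameter
  obtain ⟨m, hm, hmin⟩ := Finset.exists_min_image (Finset.univ.filter fun j => 0 < lor y (P.n j))
    (fun j => - lor q (P.n j) / (lor y (P.n j) - lor q (P.n j))) ⟨v, by simp [hyv]⟩
  have hmy : 0 < lor y (P.n m) := by simpa using hm
  have hmq := hle m
  have hden : 0 < lor y (P.n m) - lor q (P.n m) := by linarith
  set s : ℝ := - lor q (P.n m) / (lor y (P.n m) - lor q (P.n m)) with hs
  have hs0 : 0 ≤ s := div_nonneg (by linarith) hden.le
  have hs1 : s < 1 := by
    rw [hs, div_lt_one hden]; linarith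
  set z : Vec := (1 - s) • q + s • y with hz
  have hzpc : PastCausal z := pastCausal_comb hq hy (by linarith) hs0 (by linarith)
  have hlorz : ∀ w, lor z w = (1 - s) * lor q w + s * lor y w := by
    intro w
    simp only [hz, lor, Pi.add_apply, Pi.smul_apply, smul_eq_mul]
    ring
  have hzm : lor z (P.n m) = 0 := by
    rw [hlorz]
    have h1 : s * (lor y (P.n m) - lor q (P.n m)) = - lor q (P.n m) := by
      rw [hs, div_mul_cancel₀ _ hden.ne']
    linarith
  have hzle : ∀ u, lor z (P.n u) ≤ 0 := by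
    intro u
    rw [hlorz]
    by_cases hu : 0 < lor y (P.n u)
    · have h1 := hmin u (by simp [hu])
      have h2 := hle u
      have hden' : 0 < lor y (P.n u) - lor q (P.n u) := by linarith
      change s ≤ _ at h1
      rw [le_div_iff₀ hden'] at h1
      linarith
    · push Not at hu
      have h2 := hle u
      have h3 := mul_nonpos_of_nonneg_of_nonpos (sub_nonneg.2 hs1.le) h2
      have h4 := mul_nonpos_of_nonneg_of_nonpos hs0 hu
      linarith
  -- the support hyperplane orthogonal to `z`
  obtain ⟨x, hx0, hxx⟩ := hP (-(lorL z)) (by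
      intro h0
      have h1 : (-(lorL z)) (![0, 0, 0, 1] : Vec) = 0 := by rw [h0]; simp
      simp only [LinearMap.neg_apply, lorL_apply, lor] at h1
      simp at h1
      have := hzpc.1
      linarith)
    (by intro u; simp only [LinearMap.neg_apply, lorL_apply]; linarith [hzle u])
    ⟨m, by simp only [LinearMap.neg_apply, lorL_apply, hzm, neg_zero]⟩
  simp only [LinearMap.neg_apply, lorL_apply, neg_eq_zero] at hx0
  exact no_timelike hxx hzpc hx0

/-- Every hyperbolic, convex, locally shallow circle polyhedron is globally shallow. -/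
theorem result : ∀ (V : Type) [Fintype V] (P : ConvexCPolyhedron V),
    IsHyperbolic P → IsLocallyShallow P → IsGloballyShallow P := by
  intro V _ P hP hloc
  have hsqrt : ∀ v, 0 < Real.sqrt (lor (P.n v) (P.n v)) := fun v =>
    Real.sqrt_pos.2 (P.spacelike v)
  have hinv : ∀ v w, 0 < inv (P.n v) (P.n w) ↔ lor (P.n v) (P.n w) < 0 := by
    intro v w
    unfold inv
    rw [neg_pos]
    constructor
    · intro h
      by_contra hcon
      push Not at hcon
      have := div_nonneg hcon (mul_pos (hsqrt v) (hsqrt w)).le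
      linarith
    · intro h
      exact div_neg_of_neg_of_pos h (mul_pos (hsqrt v) (hsqrt w))
  have hneg : ∀ v w, w ≠ v → lor (P.n v) (P.n w) < 0 := by
    intro v
    refine negative_elsewhere P v (lorL (P.n v)) (P.spacelike v) ?_
    intro w hw
    exact (hinv v w).1 (hloc v w hw).1
  intro v w hvw
  refine ⟨(hinv v w).2 (hneg v w hvw.symm), fun h1 => ?_⟩
  rw [Set.eq_empty_iff_forall_notMem]
  rintro p ⟨⟨hp, hpv⟩, ⟨_, hpw⟩⟩
  set a := Real.sqrt (lor (P.n v) (P.n v)) with ha
  set b := Real.sqrt (lor (P.n w) (P.n w)) with hb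
  have ha0 : 0 < a := hsqrt v
  have hb0 : 0 < b := hsqrt w
  have ha2 : a ^ 2 = lor (P.n v) (P.n v) := Real.sq_sqrt (P.spacelike v).le
  have hb2 : b ^ 2 = lor (P.n w) (P.n w) := Real.sq_sqrt (P.spacelike w).le
  have hab : lor (P.n v) (P.n w) ≤ - (a * b) := by
    unfold inv at h1
    rw [← ha, ← hb] at h1
    have h2 : lor (P.n v) (P.n w) / (a * b) ≤ -1 := by linarith
    rw [div_le_iff₀ (mul_pos ha0 hb0)] at h2
    linarith
  -- the causal vector `q`
  set q : Vec := b • P.n v + a • P.n w with hq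
  have hlorq : ∀ u, lor q u = b * lor (P.n v) u + a * lor (P.n w) u := by
    intro u
    simp only [hq, lor, Pi.add_apply, Pi.smul_apply, smul_eq_mul]
    ring
  have hp1 : p 0 ^ 2 + p 1 ^ 2 + p 2 ^ 2 = 1 := by
    have h2 : ‖p‖ = 1 := by simpa using hp
    have h3 : ‖p‖ ^ 2 = 1 := by rw [h2]; norm_num
    rw [EuclideanSpace.norm_sq_eq] at h3
    simpa [Fin.sum_univ_three, sq_abs] using h3
  have hqq : lor q q ≤ 0 := by
    rw [hlorq, lor_comm (P.n v) q, lor_comm (P.n w) q, hlorq, hlorq, lor_comm (P.n w) (P.n v),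
      ← ha2, ← hb2]
    have h3 := mul_le_mul_of_nonneg_left hab (mul_pos ha0 hb0).le
    nlinarith
  have hqp : 0 < q 0 * p 0 + q 1 * p 1 + q 2 * p 2 - q 3 := by
    simp only [hq, Pi.add_apply, Pi.smul_apply, smul_eq_mul]
    have h3 := mul_pos hb0 hpv
    have h4 := mul_pos ha0 hpw
    nlinarith
  have hqpc : PastCausal q := by
    have h5 : q 0 ^ 2 + q 1 ^ 2 + q 2 ^ 2 ≤ q 3 ^ 2 := by
      unfold lor at hqq; nlinarith
    refine ⟨?_, h5⟩
    by_contra hcon
    push Not at hcon
    have h6 : (q 0 * p 0 + q 1 * p 1 + q 2 * p 2) ^ 2 ≤ q 3 ^ 2 := by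
      calc (q 0 * p 0 + q 1 * p 1 + q 2 * p 2) ^ 2
          ≤ (q 0 ^ 2 + q 1 ^ 2 + q 2 ^ 2) * (p 0 ^ 2 + p 1 ^ 2 + p 2 ^ 2) := by
            nlinarith [sq_nonneg (q 0 * p 1 - q 1 * p 0), sq_nonneg (q 0 * p 2 - q 2 * p 0),
              sq_nonneg (q 1 * p 2 - q 2 * p 1)]
        _ = q 0 ^ 2 + q 1 ^ 2 + q 2 ^ 2 := by rw [hp1, mul_one]
        _ ≤ q 3 ^ 2 := h5
    have h7 : q 0 * p 0 + q 1 * p 1 + q 2 * p 2 ≤ q 3 := le_of_sq_le_sq h6 hcon
    linarith
  refine no_dual P hP v q hqpc fun u => ?_
  rw [hlorq]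
  by_cases huv : u = v
  · subst huv
    rw [← ha2, lor_comm (P.n w) (P.n u)]
    nlinarith
  · by_cases huw : u = w
    · subst huw
      rw [← hb2]
      nlinarith
    · have h8 := hneg v u huv
      have h9 := hneg w u huw
      nlinarith


end Pool.Agent.Results.MP_625e57_gt.LocallyShallow
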